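import Pool.Agent.Run7.h138.EmtMixed
import Pool.Agent.Run7.h922.Z.Three
import Pool.Agent.Run7.h922.Z.One
import Pool.Agent.Run7.h922.Z.Two
import Pool.Agent.Run7.h922.Z.EvenTab
import Pool.Agent.Run7.h922.Z.EvenTab2
import Pool.Agent.Run7.h922.Z.FamA
import Pool.Agent.Run7.h922.Z.Fam34
import Pool.Agent.Run7.h922.Z.Fam38
import Pool.Agent.Run7.h922.Z.Fam50

/-!
MP_5186fc_co, Q1 (partial): every grid `P_m □ P_n` with `m, n ≥ 2` is edge-magic total, except
possibly when `m` and `n` are both `5` modulo `6`, or both even and neither of them is good, where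
`n` is good when it is `2`, `4`, `10`, `14` or `16` modulo `24` and not `4`, or one of
`6, 8, 12, 20, 22, 32`.
-/

open SimpleGraph

/-- the even row numbers settled for every even number of columns -/
def Pool.Agent.Results.MP_5186fc_co.MostGrids.Good (n : ℕ) : Prop :=
  ((n % 24 = 2 ∨ n % 24 = 4 ∨ n % 24 = 10 ∨ n % 24 = 14 ∨ n % 24 = 16) ∧ n ≠ 4) ∨
    n = 6 ∨ n = 8 ∨ n = 12 ∨ n = 20 ∨ n = 22 ∨ n = 32

namespace Pool.Agent.Results.MP_5186fc_co.MostGrids

theorem aux_even (r n : ℕ) (hr : 1 ≤ r) (h2 : Good n) :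
    Run7.h138.EdgeMagicTotal (pathGraph (2 * r) □ pathGraph n) := by
  rcases h2 with ⟨h | h | h | h | h, h4⟩ | rfl | rfl | rfl | rfl | rfl | rfl
  · have h3 : n = 2 ∨ n = 26 ∨ 50 ≤ n := by omega
    rcases h3 with rfl | rfl | h3
    · exact Run7.h922.Z.two_emt (2 * r) (by omega)
    · exact Run7.h922.Z.even_emt_26 r hr
    · obtain ⟨k, rfl⟩ : ∃ k, n = 24 * k + 50 := ⟨(n - 50) / 24, by omega⟩
      exact Run7.h922.Z.Fam50.fam50_emt r k hr
  · obtain ⟨k, rfl⟩ : ∃ k, n = 12 * k + 16 := ⟨(n - 16) / 12, by omega⟩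
    exact Run7.h922.Z.FamA.famA_emt r k hr
  · have h3 : n = 10 ∨ 34 ≤ n := by omega
    rcases h3 with rfl | h3
    · exact Run7.h922.Z.even_emt_10 r hr
    · obtain ⟨k, rfl⟩ : ∃ k, n = 24 * k + 34 := ⟨(n - 34) / 24, by omega⟩
      exact Run7.h922.Z.Fam34.fam34_emt r k hr
  · have h3 : n = 14 ∨ 38 ≤ n := by omega
    rcases h3 with rfl | h3
    · exact Run7.h922.Z.even_emt_14 r hr
    · obtain ⟨k, rfl⟩ : ∃ k, n = 24 * k + 38 := ⟨(n - 38) / 24, by omega⟩
      exact Run7.h922.Z.Fam38.fam38_emt r k hr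
  · obtain ⟨k, rfl⟩ : ∃ k, n = 12 * k + 16 := ⟨(n - 16) / 12, by omega⟩
    exact Run7.h922.Z.FamA.famA_emt r k hr
  · exact Run7.h922.Z.even_emt_6 r hr
  · exact Run7.h922.Z.even_emt_8 r hr
  · exact Run7.h922.Z.even_emt_12 r hr
  · exact Run7.h922.Z.even_emt_20 r hr
  · exact Run7.h922.Z.even_emt_22 r hr
  · exact Run7.h922.Z.even_emt_32 r hr

theorem aux (m n : ℕ) (hm : 2 ≤ m) (hn : 2 ≤ n)
    (h : n % 6 = 1 ∨ n % 6 = 3 ∨ (Even m ∧ Good n)) :
    Run7.h138.EdgeMagicTotal (pathGraph m □ pathGraph n) := by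
  rcases h with h | h | ⟨h, h2⟩
  · obtain ⟨k, rfl⟩ : ∃ k, n = 6 * k + 1 := ⟨n / 6, by omega⟩
    exact Run7.h922.Z.one_emt m k (by omega) (by omega)
  · obtain ⟨k, rfl⟩ : ∃ k, n = 6 * k + 3 := ⟨n / 6, by omega⟩
    exact Run7.h922.Z.three_emt m k (by omega)
  · obtain ⟨r, rfl⟩ := h
    have hr : 1 ≤ r := by omega
    have e : r + r = 2 * r := by ring
    rw [e]
    exact aux_even r n hr h2

end Pool.Agent.Results.MP_5186fc_co.MostGrids

theorem Pool.Agent.Results.MP_5186fc_co.MostGrids.result :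
    ∀ m n : ℕ, 2 ≤ m → 2 ≤ n →
      ¬ (m % 6 = 5 ∧ n % 6 = 5) →
      ¬ (Even m ∧ Even n ∧ ¬ Pool.Agent.Results.MP_5186fc_co.MostGrids.Good m ∧
        ¬ Pool.Agent.Results.MP_5186fc_co.MostGrids.Good n) →
      Run7.h138.EdgeMagicTotal (pathGraph m □ pathGraph n) := by
  intro m n hm hn h5 he
  rcases Nat.even_or_odd (m + n) with hs | hs
  · rcases Nat.even_or_odd m with hm2 | hm2
    · have hn2 : Even n := (Nat.even_add.mp hs).mp hm2
      by_cases h1 : Pool.Agent.Results.MP_5186fc_co.MostGrids.Good n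
      · exact Pool.Agent.Results.MP_5186fc_co.MostGrids.aux m n hm hn (Or.inr (Or.inr ⟨hm2, h1⟩))
      · have h2 : Pool.Agent.Results.MP_5186fc_co.MostGrids.Good m := by
          by_contra h3
          exact he ⟨hm2, hn2, h3, h1⟩
        exact Run7.h138.grid_comm
          (Pool.Agent.Results.MP_5186fc_co.MostGrids.aux n m hn hm (Or.inr (Or.inr ⟨hn2, h2⟩)))
    · have hn2 : Odd n := by
        rcases Nat.even_or_odd n with h | h
        · exact absurd ((Nat.even_add.mp hs).mpr h) (Nat.not_even_iff_odd.mpr hm2)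
        · exact h
      rw [Nat.odd_iff] at hm2 hn2
      have h : (n % 6 = 1 ∨ n % 6 = 3) ∨ (m % 6 = 1 ∨ m % 6 = 3) := by omega
      rcases h with (h | h) | (h | h)
      · exact Pool.Agent.Results.MP_5186fc_co.MostGrids.aux m n hm hn (Or.inl h)
      · exact Pool.Agent.Results.MP_5186fc_co.MostGrids.aux m n hm hn (Or.inr (Or.inl h))
      · exact Run7.h138.grid_comm
          (Pool.Agent.Results.MP_5186fc_co.MostGrids.aux n m hn hm (Or.inl h))
      · exact Run7.h138.grid_comm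
          (Pool.Agent.Results.MP_5186fc_co.MostGrids.aux n m hn hm (Or.inr (Or.inl h)))
  · exact Run7.h138.grid_emt_of_odd_add (by omega) (by omega) hs
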